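import Pool.Agent.H29.SX.Targets

/-!
MP_c65535_nt, board shx_modules, row UNI: a prime at which finitely many numbers are units.
-/

set_option autoImplicit false

namespace Pool.Agent.H5.SX

open NumberField Height Finset Polynomial Pool.Agent.H24.RD Pool.Agent.H23.RDD Pool.Agent.H29.RQ
  Pool.Agent.H29.SX

theorem pf_UNI : T_UNI := by
  intro F _ _ r γ hγ
  have hna : ∀ w : FinitePlace F, IsNonarchimedean w.1 := fun w x y => w.add_le x y
  have hint : ∀ (w : FinitePlace F) (n : ℤ), w.1 (n : F) ≤ 1 := fun w n =>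
    (hna w).apply_intCast_le_one
  have hB : (⋃ i : Fin r, {w : FinitePlace F | w.1 (γ i) ≠ 1}).Finite :=
    Set.finite_iUnion fun i => FinitePlace.hasFiniteMulSupport (hγ i)
  have hQ : (⋃ w ∈ (⋃ i : Fin r, {w : FinitePlace F | w.1 (γ i) ≠ 1}),
      {q : ℕ | q.Prime ∧ w.1 (q : F) < 1}).Finite := by
    refine hB.biUnion fun w _ => Set.Subsingleton.finite ?_
    rintro p ⟨hp, hp1⟩ q ⟨hq, hq1⟩
    by_contra hne
    have hco : IsCoprime (p : ℤ) (q : ℤ) :=
      Nat.isCoprime_iff_coprime.2 ((Nat.coprime_primes hp hq).2 hne)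
    obtain ⟨a, b, hab⟩ := hco
    have h1 : ((a : ℤ) : F) * (p : F) + ((b : ℤ) : F) * (q : F) = 1 := by
      have h2 := congrArg (Int.cast : ℤ → F) hab
      push_cast at h2
      exact h2
    have h2 : w.1 (((a : ℤ) : F) * (p : F) + ((b : ℤ) : F) * (q : F)) < 1 := by
      refine lt_of_le_of_lt (hna w _ _) (max_lt ?_ ?_)
      · rw [map_mul]
        exact lt_of_le_of_lt (mul_le_of_le_one_left (w.1.nonneg _) (hint w a)) hp1
      · rw [map_mul]
        exact lt_of_le_of_lt (mul_le_of_le_one_left (w.1.nonneg _) (hint w b)) hq1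
    rw [h1, map_one] at h2
    exact lt_irrefl _ h2
  obtain ⟨p, hp, hp'⟩ := Nat.infinite_setOfPred_prime.exists_notMem_finite hQ
  refine ⟨p, hp, fun w hw i => ?_⟩
  by_contra hne
  apply hp'
  exact Set.mem_biUnion (Set.mem_iUnion.2 ⟨i, hne⟩) ⟨hp, hw⟩

end Pool.Agent.H5.SX
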